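import Pool.Agent.H.MP_ccc55c_co.A
import Pool.Agent.H.MP_ccc55c_co.B

set_option autoImplicit false

namespace Pool.Agent.Results.MP_ccc55c_co.Five

open Pool.Agent.H.MP_ccc55c_co

theorem result : ∀ n : ℕ, 5 ≤ n → (5 ∈ J n ↔ n = 5 ∨ 11 ≤ n) := by
  intro n hn
  constructor
  · rintro ⟨-, -, h⟩
    by_contra hc
    have := h {3, n} (by
      intro x hx
      simp only [Set.mem_insert_iff, Set.mem_singleton_iff] at hx
      simp only [Set.mem_Icc]; omega)
      ⟨by norm_num, hn, fun G hG => neg hn (by omega) (hG 3 (by simp)) (hG n (by simp))⟩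
    simp only [Set.mem_insert_iff, Set.mem_singleton_iff] at this
    omega
  · intro h
    refine ⟨by norm_num, hn, fun S hS hc => ?_⟩
    by_contra h5
    have hS' : ∀ i ∈ S, 3 ≤ i ∧ i ≤ n ∧ i ≠ 5 := fun i hi =>
      ⟨(hS hi).1, (hS hi).2, fun e => h5 (e ▸ hi)⟩
    rcases h with rfl | h
    · exact five_not (hc.2.2 _ fun i hi => five i (hS' i hi).1 (by have := hS' i hi; omega))
    · exact big_not (by omega) (hc.2.2 _ fun i hi =>
        big h i (hS' i hi).1 (hS' i hi).2.1 (hS' i hi).2.2)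

end Pool.Agent.Results.MP_ccc55c_co.Five
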